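import Mathlib

/-!
# A double-commutator map on matrices is not surjective in characteristic two

Let `K` be a field of characteristic `2` and let `n` be congruent to `2` modulo `4`.  If `s` and
`t` are distinct non-zero elements of `K`, then the pair of trace-zero matrices `(s • 1, t • 1)` is
not of the form `([a,[b,c]], [b,[c,a]])`.
-/

namespace Pool.Agent.Results.MP_525382_al.CharTwoScalars

open Polynomial Matrix

universe u

/-- If a monic polynomial of degree `k+2` is invariant under the shift by `r`, then its two leading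
nontrivial coefficients are related. -/
lemma coeff_of_shift {K : Type u} [Field K] (p : K[X]) (k : ℕ) (hp : p.Monic)
    (hd : p.natDegree = k + 2) (r : K) (h : p.comp (X + C r) = p) :
    ((k + 1 : ℕ) : K) * p.coeff (k + 1) * r + (((k + 2).choose k : ℕ) : K) * r ^ 2 = 0 := by
  have h1 : (taylor r p).coeff k = (hasseDeriv k p).eval r := taylor_coeff r p k
  have h2 : taylor r p = p := by
    rw [taylor_apply]; exact h
  rw [h2, hasseDeriv_apply] at h1
  rw [Polynomial.sum_over_range' _ _ (k + 3) (by omega)] at h1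
  · rw [Polynomial.eval_finsetSum, Finset.sum_range_succ, Finset.sum_range_succ,
      Finset.sum_range_succ] at h1
    have h0 : ∑ x ∈ Finset.range k,
        eval r ((monomial (x - k)) (((x.choose k : ℕ) : K) * p.coeff x)) = 0 := by
      apply Finset.sum_eq_zero
      intro x hx
      rw [Nat.choose_eq_zero_of_lt (Finset.mem_range.1 hx)]
      simp
    have hc : p.coeff (k + 2) = 1 := by
      rw [← hd]; exact hp.coeff_natDegree
    rw [h0] at h1
    simp only [eval_monomial, Nat.sub_self, Nat.choose_self, Nat.choose_succ_self_right, hc,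
      Nat.add_sub_cancel_left, pow_zero, pow_one, mul_one, zero_add, Nat.cast_one, one_mul] at h1
    linear_combination -h1
  · intro i
    simp

/-- In characteristic two, if `e f - f e = r` is a nonzero scalar and the size of the matrices is
`2` modulo `4`, then the trace of `e f` is `r`. -/
lemma trace_of_scalar {K : Type u} [Field K] [CharP K 2] (n : ℕ) (hn : n % 4 = 2)
    (a v : Matrix (Fin n) (Fin n) K) (r : K) (hr : r ≠ 0)
    (h : a * v - v * a = r • (1 : Matrix (Fin n) (Fin n) K)) : (a * v).trace = r := by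
  obtain ⟨k, rfl⟩ : ∃ k, n = k + 2 := ⟨n - 2, by omega⟩
  have h1 : v * a = a * v - scalar (Fin (k + 2)) r := by
    rw [Matrix.scalar_apply, ← Matrix.smul_one_eq_diagonal, ← h]; abel
  have h2 : (a * v).charpoly.comp (X + C r) = (a * v).charpoly := by
    rw [← Matrix.charpoly_sub_scalar, ← h1, Matrix.charpoly_mul_comm]
  have hd : (a * v).charpoly.natDegree = k + 2 := by
    rw [Matrix.charpoly_natDegree_eq_dim]; simp
  have h3 := coeff_of_shift (a * v).charpoly k (Matrix.charpoly_monic _) hd r h2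
  have h4 : (a * v).trace = -(a * v).charpoly.coeff (k + 1) := by
    rw [Matrix.trace_eq_neg_charpoly_coeff]; simp
  obtain ⟨j, rfl⟩ : ∃ j, k = 4 * j := ⟨k / 4, by omega⟩
  have e2 : (2 : K) = 0 := CharTwo.two_eq_zero
  have c1 : ((4 * j + 1 : ℕ) : K) = 1 := by
    push_cast
    linear_combination (2 * (j : K)) * e2
  have c2 : (((4 * j + 2).choose (4 * j) : ℕ) : K) = 1 := by
    rw [Nat.choose_symm_add, Nat.choose_two_right]
    have : (4 * j + 2) * (4 * j + 2 - 1) / 2 = 2 * (4 * j * j + 3 * j) + 1 := by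
      have : (4 * j + 2) * (4 * j + 2 - 1) = 2 * (2 * (4 * j * j + 3 * j) + 1) := by
        have : 4 * j + 2 - 1 = 4 * j + 1 := by omega
        rw [this]; ring
      rw [this]; simp
    rw [this]
    push_cast
    linear_combination (4 * (j : K) * j + 3 * j) * e2
  rw [c1, c2] at h3
  have h5 : (a * v).charpoly.coeff (4 * j + 1) + r = 0 := by
    have : r * ((a * v).charpoly.coeff (4 * j + 1) + r) = 0 := by linear_combination h3
    exact (mul_eq_zero.1 this).resolve_left hr
  rw [h4]
  linear_combination -h5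

/-- The pair of scalar matrices `(s, t)` is not a value of the double-commutator map. -/
lemma not_image {K : Type u} [Field K] [CharP K 2] (n : ℕ) (hn : n % 4 = 2) (s t : K)
    (hs : s ≠ 0) (ht : t ≠ 0) (hst : s ≠ t) :
    ¬ ∃ a b c : Matrix (Fin n) (Fin n) K, s • (1 : Matrix (Fin n) (Fin n) K) = ⁅a, ⁅b, c⁆⁆ ∧
      t • (1 : Matrix (Fin n) (Fin n) K) = ⁅b, ⁅c, a⁆⁆ := by
  rintro ⟨a, b, c, h1, h2⟩
  have h3 := trace_of_scalar n hn a ⁅b, c⁆ s hs (by rw [h1]; rfl)
  have h4 := trace_of_scalar n hn b ⁅c, a⁆ t ht (by rw [h2]; rfl)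
  apply hst
  rw [← h3, ← h4]
  rw [Ring.lie_def, Ring.lie_def, Matrix.mul_sub, Matrix.mul_sub, Matrix.trace_sub,
    Matrix.trace_sub]
  congr 1
  · rw [← Matrix.mul_assoc, ← Matrix.mul_assoc]
    rw [Matrix.mul_assoc, Matrix.trace_mul_comm]
  · rw [← Matrix.mul_assoc, Matrix.trace_mul_comm, ← Matrix.mul_assoc]

/-- For every field `K` of characteristic `2` with more than two elements (there is an `s` other
than `0` and `1`), and every `n` congruent to `2` modulo `4`, the trace-zero pairs `(s, t)` of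
distinct non-zero scalar matrices are not in the image of
`(a, b, c) ↦ ([a,[b,c]], [b,[c,a]])` on `n × n` matrices; in particular the map is not surjective
onto pairs of trace-zero matrices for every field and every `n ≥ 3`. -/
theorem result :
    (∀ (K : Type u) [Field K] [CharP K 2] (n : ℕ), n % 4 = 2 → ∀ s t : K,
      s ≠ 0 → t ≠ 0 → s ≠ t →
        (s • (1 : Matrix (Fin n) (Fin n) K)).trace = 0 ∧
        (t • (1 : Matrix (Fin n) (Fin n) K)).trace = 0 ∧
        ¬ ∃ a b c : Matrix (Fin n) (Fin n) K,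
          s • (1 : Matrix (Fin n) (Fin n) K) = ⁅a, ⁅b, c⁆⁆ ∧
          t • (1 : Matrix (Fin n) (Fin n) K) = ⁅b, ⁅c, a⁆⁆) ∧
    ¬ (∀ (K : Type) [Field K] (n : ℕ), 3 ≤ n → ∀ x y : Matrix (Fin n) (Fin n) K,
        x.trace = 0 → y.trace = 0 →
        ∃ a b c : Matrix (Fin n) (Fin n) K, x = ⁅a, ⁅b, c⁆⁆ ∧ y = ⁅b, ⁅c, a⁆⁆) := by
  have tr : ∀ (K : Type u) [Field K] [CharP K 2] (n : ℕ), n % 4 = 2 → ∀ s : K,
      (s • (1 : Matrix (Fin n) (Fin n) K)).trace = 0 := by
    intro K _ _ n hn s
    obtain ⟨k, rfl⟩ : ∃ k, n = 2 * k := ⟨n / 2, by omega⟩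
    rw [Matrix.trace_smul, Matrix.trace_one, Fintype.card_fin]
    push_cast
    rw [CharTwo.two_eq_zero]
    simp
  have tr0 : ∀ (K : Type) [Field K] [CharP K 2] (n : ℕ), n % 4 = 2 → ∀ s : K,
      (s • (1 : Matrix (Fin n) (Fin n) K)).trace = 0 := by
    intro K _ _ n hn s
    obtain ⟨k, rfl⟩ : ∃ k, n = 2 * k := ⟨n / 2, by omega⟩
    rw [Matrix.trace_smul, Matrix.trace_one, Fintype.card_fin]
    push_cast
    rw [CharTwo.two_eq_zero]
    simp
  refine ⟨?_, ?_⟩
  · intro K _ _ n hn s t hs ht hst
    exact ⟨tr K n hn s, tr K n hn t, not_image n hn s t hs ht hst⟩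
  · intro H
    have : Fact (Nat.Prime 2) := ⟨Nat.prime_two⟩
    have hcard : Nat.card (GaloisField 2 2) = 4 := by
      rw [GaloisField.card 2 2 (by norm_num)]; norm_num
    obtain ⟨s, hs0, hs1⟩ : ∃ s : GaloisField 2 2, s ≠ 0 ∧ s ≠ 1 := by
      by_contra hcon
      push Not at hcon
      have : Set.univ ⊆ ({0, 1} : Set (GaloisField 2 2)) := by
        intro s _
        by_cases h0 : s = 0
        · left; exact h0
        · right; exact hcon s h0
      have h2 : Nat.card (GaloisField 2 2) ≤ 2 := by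
        rw [← Nat.card_univ (α := GaloisField 2 2)] 
        refine le_trans (Nat.card_mono (Set.toFinite _) this) ?_
        rw [Nat.card_coe_set_eq]
        exact (Set.ncard_insert_le _ _).trans (by simp)
      omega
    obtain ⟨a, b, c, h1, h2⟩ := H (GaloisField 2 2) 6 (by norm_num) (s • 1) ((1 : GaloisField 2 2) • 1)
      (tr0 _ 6 (by norm_num) s) (tr0 _ 6 (by norm_num) 1)
    exact not_image 6 (by norm_num) s 1 hs0 one_ne_zero hs1 ⟨a, b, c, h1, h2⟩

end Pool.Agent.Results.MP_525382_al.CharTwoScalars
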